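import Pool.Agent.Helper95.LN.Stmts

/-! Row PHA of the sheet LN: the smeared Coulomb potential. -/

set_option autoImplicit false

namespace Pool.Agent.Helper24.LN

open MeasureTheory Filter Set Pool.Agent.Helper95.PW Pool.Agent.Helper95.LN

lemma bt_contDiff : ContDiff ℝ (⊤ : ℕ∞) bt := by
  unfold bt
  refine ContDiff.mul ?_ ?_
  · exact Real.smoothTransition.contDiff.comp (contDiff_const.mul (contDiff_id.sub contDiff_const))
  · exact Real.smoothTransition.contDiff.comp (contDiff_const.mul (contDiff_const.sub contDiff_id))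

lemma bt2_cont : Continuous (fun u => bt u ^ 2) := bt_contDiff.continuous.pow 2

lemma bt_low {t : ℝ} (h : t ≤ 1) : bt t = 0 := by
  unfold bt
  rw [Real.smoothTransition.zero_of_nonpos (by linarith), zero_mul]

lemma bt_high {t : ℝ} (h : 2 ≤ t) : bt t = 0 := by
  unfold bt
  rw [Real.smoothTransition.zero_of_nonpos (x := 4 * (2 - t)) (by linarith), mul_zero]

lemma bt2_int (a b : ℝ) : IntervalIntegrable (fun u => bt u ^ 2) volume a b :=
  bt2_cont.intervalIntegrable a b

lemma cb_pos : 0 < cb := by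
  unfold cb
  refine intervalIntegral.intervalIntegral_pos_of_pos_on (bt2_int 1 2) (fun x hx => ?_)
    (by norm_num)
  have h1 : 0 < Real.smoothTransition (4 * (x - 1)) :=
    Real.smoothTransition.pos_of_pos (by linarith [hx.1])
  have h2 : 0 < Real.smoothTransition (4 * (2 - x)) :=
    Real.smoothTransition.pos_of_pos (by linarith [hx.2])
  have : 0 < bt x := mul_pos h1 h2
  positivity

lemma int_zero {a b : ℝ} (h : ∀ u ∈ uIcc a b, bt u = 0) : ∫ u in a..b, bt u ^ 2 = 0 := by
  rw [intervalIntegral.integral_congr (g := fun _ => (0 : ℝ))]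
  · simp
  · intro u hu
    simp only [h u hu]
    norm_num

lemma G1_low {t : ℝ} (h : t ≤ 1) : G1 t = 1 := by
  unfold G1
  rw [← intervalIntegral.integral_add_adjacent_intervals (bt2_int t 1) (bt2_int 1 2), int_zero,
    zero_add]
  · change 1 / cb * cb = 1
    rw [one_div, inv_mul_cancel₀ cb_pos.ne']
  · intro u hu
    rw [uIcc_of_le h] at hu
    exact bt_low hu.2

lemma G1_high {t : ℝ} (h : 2 ≤ t) : G1 t = 0 := by
  unfold G1
  rw [int_zero, mul_zero]
  intro u hu
  rw [uIcc_of_ge h] at hu
  exact bt_high hu.1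

lemma G1_anti {s t : ℝ} (h : s ≤ t) : G1 t ≤ G1 s := by
  unfold G1
  rw [← intervalIntegral.integral_add_adjacent_intervals (bt2_int s t) (bt2_int t 2)]
  have h1 : 0 ≤ ∫ u in s..t, bt u ^ 2 :=
    intervalIntegral.integral_nonneg h fun u _ => sq_nonneg _
  have h2 : 0 < 1 / cb := one_div_pos.2 cb_pos
  exact mul_le_mul_of_nonneg_left (by linarith) h2.le

lemma G1_nonneg (t : ℝ) : 0 ≤ G1 t := by
  have := G1_anti (le_max_left t 2)
  rwa [G1_high (le_max_right t 2)] at this

lemma G1_le_one (t : ℝ) : G1 t ≤ 1 := by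
  have := G1_anti (min_le_left t 1)
  rwa [G1_low (min_le_right t 1)] at this

lemma G1_deriv (t : ℝ) : HasDerivAt G1 (-(bt t ^ 2 / cb)) t := by
  have h1 : HasDerivAt (fun t => ∫ u in (2:ℝ)..t, bt u ^ 2) (bt t ^ 2) t :=
    (bt2_cont.integral_hasStrictDerivAt 2 t).hasDerivAt
  have h2 : G1 = fun t => -(1 / cb) * ∫ u in (2:ℝ)..t, bt u ^ 2 := by
    funext s
    unfold G1
    rw [intervalIntegral.integral_symm]
    ring
  rw [h2]
  have h3 := h1.const_mul (-(1 / cb))
  have h4 : -(1 / cb) * bt t ^ 2 = -(bt t ^ 2 / cb) := by ring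
  rw [← h4]
  exact h3

lemma G1_contDiff : ContDiff ℝ (⊤ : ℕ∞) G1 := by
  rw [contDiff_infty_iff_deriv]
  refine ⟨fun t => (G1_deriv t).differentiableAt, ?_⟩
  have : deriv G1 = fun t => -(bt t ^ 2 / cb) := funext fun t => (G1_deriv t).deriv
  rw [this]
  exact ((bt_contDiff.pow 2).div_const cb).neg

lemma G1_int (a b : ℝ) : IntervalIntegrable G1 volume a b :=
  G1_contDiff.continuous.intervalIntegrable a b

lemma G0_deriv (t : ℝ) : HasDerivAt G0 (G1 t) t :=
  (G1_contDiff.continuous.integral_hasStrictDerivAt 0 t).hasDerivAt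

lemma G0_contDiff : ContDiff ℝ (⊤ : ℕ∞) G0 := by
  rw [contDiff_infty_iff_deriv]
  refine ⟨fun t => (G0_deriv t).differentiableAt, ?_⟩
  have : deriv G0 = G1 := funext fun t => (G0_deriv t).deriv
  rw [this]
  exact G1_contDiff

lemma G0_low {t : ℝ} (h : t ≤ 1) : G0 t = t := by
  unfold G0
  rw [intervalIntegral.integral_congr (g := fun _ => (1 : ℝ))]
  · simp
  · intro u hu
    have : u ≤ max 0 t := hu.2
    exact G1_low (this.trans (max_le zero_le_one h))

lemma G0_high {t : ℝ} (h : 2 ≤ t) : G0 t = G0 2 := by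
  unfold G0
  rw [← intervalIntegral.integral_add_adjacent_intervals (G1_int 0 2) (G1_int 2 t)]
  rw [intervalIntegral.integral_congr (a := 2) (b := t) (g := fun _ => (0 : ℝ))]
  · simp
  · intro u hu
    rw [uIcc_of_le h] at hu
    exact G1_high hu.1

lemma G0_nonneg {t : ℝ} (h : 0 ≤ t) : 0 ≤ G0 t :=
  intervalIntegral.integral_nonneg h fun u _ => G1_nonneg u

lemma G0_le {t : ℝ} (h : 0 ≤ t) : G0 t ≤ t := by
  have h1 : G0 t ≤ ∫ _u in (0:ℝ)..t, (1 : ℝ) :=
    intervalIntegral.integral_mono_on h (G1_int 0 t) intervalIntegrable_const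
      fun u _ => G1_le_one u
  simpa using h1

lemma G0_conc {s t : ℝ} (hs : 0 ≤ s) (ht : 1 ≤ t) : G0 s ≤ t * G0 (s / t) := by
  have ht0 : 0 < t := by linarith
  have h1 : ∫ u in (0:ℝ)..s, G1 (u / t) = t * G0 (s / t) := by
    rw [intervalIntegral.integral_comp_div G1 ht0.ne', zero_div, smul_eq_mul]
    rfl
  rw [← h1]
  refine intervalIntegral.integral_mono_on hs (G1_int 0 s) ?_ fun u hu => ?_
  · exact (G1_contDiff.continuous.comp (continuous_id.div_const t)).intervalIntegrable 0 s
  · exact G1_anti (div_le_self hu.1 ht)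

lemma nr_nonneg' (y : R3) : 0 ≤ nr y := Real.sqrt_nonneg _

lemma nr_continuous : Continuous nr := by
  unfold nr
  fun_prop

lemma nr_contDiffAt {y : R3} (h : 0 < nr y) : ContDiffAt ℝ (⊤ : ℕ∞) nr y := by
  unfold nr
  refine ContDiffAt.sqrt ?_ ?_
  · fun_prop
  · intro h0
    unfold nr at h
    rw [h0, Real.sqrt_zero] at h
    exact lt_irrefl _ h

/-- both branches agree -/
lemma ph_eq {a : ℝ} (ha : 0 < a) {y : R3} (hy : 0 < nr y) : ph a y = G0 (a / nr y) / a := by
  unfold ph
  split_ifs with h
  · have h2 : 2 ≤ a / nr y := by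
      rw [le_div_iff₀ hy]
      linarith
    rw [G0_high h2]
  · rfl

theorem PHA : ST_PHA := by
  intro a ha
  refine ⟨?_, ?_, ?_, ?_, ?_⟩
  · rw [contDiff_iff_contDiffAt]
    intro y
    rcases lt_or_ge (nr y) (a / 2) with h | h
    · have hev : ph a =ᶠ[nhds y] fun _ => G0 2 / a := by
        filter_upwards [nr_continuous.continuousAt.eventually_lt continuousAt_const h] with z hz
        unfold ph
        rw [if_pos hz]
      exact contDiffAt_const.congr_of_eventuallyEq hev
    · have hy : 0 < nr y := by linarith [half_pos ha]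
      have hev : ph a =ᶠ[nhds y] fun z => G0 (a / nr z) / a := by
        filter_upwards [continuousAt_const.eventually_lt nr_continuous.continuousAt hy] with z hz
        exact ph_eq ha hz
      refine ContDiffAt.congr_of_eventuallyEq ?_ hev
      refine ContDiffAt.div_const ?_ a
      have h1 : ContDiffAt ℝ (⊤ : ℕ∞) (fun z => a / nr z) y :=
        contDiffAt_const.div (nr_contDiffAt hy) hy.ne'
      exact ContDiffAt.comp y G0_contDiff.contDiffAt h1
  · intro y hy
    have hp : 0 < nr y := by linarith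
    rw [ph_eq ha hp, G0_low ((div_le_one hp).2 hy)]
    field_simp
  · intro y hy
    have hp : 0 < nr y := lt_of_le_of_ne (nr_nonneg' y) (Ne.symm hy)
    rw [ph_eq ha hp]
    calc G0 (a / nr y) / a ≤ (a / nr y) / a := by
          gcongr
          exact G0_le (by positivity)
      _ = 1 / nr y := by field_simp
  · intro y
    unfold ph
    split_ifs with h
    · exact ⟨div_nonneg (G0_nonneg (by norm_num)) ha.le,
        div_le_div_of_nonneg_right (G0_le (by norm_num)) ha.le⟩
    · have hp : 0 < nr y := by linarith [half_pos ha, not_lt.1 h]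
      have h1 : a / nr y ≤ 2 := by
        rw [div_le_iff₀ hp]
        linarith [not_lt.1 h]
      have h0 : 0 ≤ a / nr y := by positivity
      exact ⟨div_nonneg (G0_nonneg h0) ha.le,
        div_le_div_of_nonneg_right ((G0_le h0).trans h1) ha.le⟩
  · intro t y ht
    have ht0 : 0 < t := by linarith
    have hat : 0 < a / t := by positivity
    rcases (nr_nonneg' y).eq_or_lt with h | h
    · unfold ph
      rw [← h, if_pos (half_pos ha), if_pos (half_pos hat)]
      have h2 : 0 ≤ G0 2 := G0_nonneg (by norm_num)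
      exact div_le_div_of_nonneg_left h2 hat (div_le_self ha.le ht)
    · rw [ph_eq ha h, ph_eq hat h]
      have h1 := G0_conc (s := a / nr y) (t := t) (by positivity) ht
      have h2 : a / t / nr y = a / nr y / t := by
        field_simp
      rw [h2, div_div_eq_mul_div, mul_comm (G0 _) t]
      exact div_le_div_of_nonneg_right h1 ha.le

end Pool.Agent.Helper24.LN
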